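import Pool.Agent.Lib.MP_159dfd_an.Family
import Pool.Agent.Lib.MP_159dfd_an.Example

set_option autoImplicit false

namespace Pool.Agent.Results.MP_159dfd_an.AlmostAllHot

open Pool.Agent.Lib.MP_159dfd_an Real Set

/-- For every `ε > 0` there is a connected compact metric graph, all of whose vertices have degree
three, that has a bridge, whose set `M` of hot and cold spots is uncountable and contains one
interval on each edge, these intervals having at least the proportion `1 - ε` of the length. -/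
theorem result (ε : ℝ) (hε : 0 < ε) :
    ∃ Γ : MetricGraph, 0 < Γ.nV ∧ Γ.ConnectedVia Set.univ ∧ (∀ v, Γ.degree v = 3) ∧
      (∃ b : Fin Γ.nE, ¬ Γ.ConnectedVia {e | e ≠ b}) ∧ ¬ Γ.hotSpots.Countable ∧
      ∃ a b : Fin Γ.nE → ℝ, (∀ e, 0 ≤ a e ∧ a e ≤ b e ∧ b e ≤ Γ.len e) ∧
        (∀ (e : Fin Γ.nE) (x : Set.Ioo (0 : ℝ) (Γ.len e)), a e < x → x < b e →
          (Sum.inr ⟨e, x⟩ : Γ.Point) ∈ Γ.hotSpots) ∧
        (1 - ε) * ∑ e, Γ.len e ≤ ∑ e, (b e - a e) := by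
  obtain ⟨δ, d0, d1, d2⟩ : ∃ δ : ℝ, 0 < δ ∧ δ ≤ 1 / 4 ∧ δ ≤ ε / 4 :=
    ⟨min (1 / 4) (ε / 4), lt_min (by norm_num) (by linarith), min_le_left _ _, min_le_right _ _⟩
  obtain ⟨P, h1, h2, h3, h4⟩ := exists_par d0 d1
  have hpi := pi_gt_three
  have d3 : δ < π / 4 := by linarith
  refine ⟨P.G, Nat.succ_pos 3, G0_connected, G0_degree, ⟨2, G0_bridge⟩, fun h => ?_,
    ![δ, δ, 0, 0, 0, 0], ![2 * P.h - δ, 2 * P.h + π - δ, 0, 0, 0, 0], fun e => ?_,
    fun e x => ?_, ?_⟩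
  · let c : P.G.Point → ℝ := fun p => match p with
      | Sum.inl _ => 0
      | Sum.inr ⟨_, x⟩ => x
    have hsub : Ioo δ (2 * P.h - δ) ⊆ c '' P.G.hotSpots := fun θ hθ =>
      ⟨_, P.hot_short d0 d3 h1 ⟨θ, d0.trans hθ.1, hθ.2.trans (sub_lt_self _ d0)⟩ hθ.1 hθ.2, rfl⟩
    have := ((h.image c).mono hsub).le_aleph0
    rw [Cardinal.mk_Ioo_real (by linarith)] at this
    exact absurd this (not_le.mpr Cardinal.aleph0_lt_continuum)
  · have := P.G.len_pos e
    fin_cases e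
    · exact ⟨d0.le, show δ ≤ 2 * P.h - δ by linarith, sub_le_self _ d0.le⟩
    · exact ⟨d0.le, show δ ≤ 2 * P.h + π - δ by linarith, sub_le_self _ d0.le⟩
    all_goals exact ⟨le_rfl, le_rfl, this.le⟩
  · fin_cases e
    · exact P.hot_short d0 d3 h1 x
    · exact P.hot_long d0 d3 h1 x
    all_goals exact fun g1 g2 => absurd (g1.trans g2) (lt_irrefl _)
  · have e1 : ∑ e, P.G.len e = 4 * P.h + π + 2 * P.s + 4 * P.m := by
      simp [Fin.sum_univ_six]
      ring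
    rw [e1]
    simp only [Fin.sum_univ_six]
    change _ ≤ 2 * P.h - δ - δ + (2 * P.h + π - δ - δ) + (0 - 0) + (0 - 0) + (0 - 0) + (0 - 0)
    have := mul_pos hε (show 0 < 4 * P.h + π + 2 * P.s + 4 * P.m - 3 by
      linarith [P.h0, P.s0, P.m0])
    linarith

end Pool.Agent.Results.MP_159dfd_an.AlmostAllHot
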